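import Pool.Agent.Helper78.LK.Goals

/-!
# Project LK (MP_5a63b6_lc): goal XRC
-/

set_option autoImplicit false

namespace Pool.Agent.Helper44.LK

open Pool.Agent.Helper50.KP Pool.Agent.Helper78.LK

theorem br4_append {u v : Word} (hu : Br4 u) (hv : Br4 v) : Br4 (u ++ v) := by
  intro e he
  rcases List.mem_append.1 he with h | h
  · exact hu e h
  · exact hv e h

theorem br4_nil : Br4 [] := by
  intro e he
  simp at he

theorem br4_X (s : Bool) : Br4 [(.X s, 1)] := by
  intro e he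
  rw [List.mem_singleton] at he
  subst he
  exact ⟨rfl, by norm_num⟩

theorem xW_succ (b : ℕ) : xW (b + 1) = [(.X true, 1)] ++ xW b ++ [(.X false, 1)] := rfl

theorem br4_xW : ∀ b, Br4 (xW b)
  | 0 => by
    intro e he
    have he' : e = (.X true, 0) ∨ e = (.X false, 2) := by
      simpa [xW, uW] using he
    rcases he' with h | h
    · subst h; exact ⟨rfl, by norm_num⟩
    · subst h; exact ⟨rfl, by norm_num⟩
  | b + 1 => by
    rw [xW_succ]
    exact br4_append (br4_append (br4_X true) (br4_xW b)) (br4_X false)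

theorem cups_str (w : Word) : str (cups ++ w) 0 = str w 4 := rfl

theorem ctx4 (hTQ : TQ) (hBIC : BIC) {u v w w' : Word} (hu : Br4 u) (hv : Br4 v) (hw : Br4 w)
    (h : Teq 4 w w') : Teq 4 (u ++ w ++ v) (u ++ w' ++ v) := by
  refine hTQ.2.1 4 4 u v w w' (hBIC.1 u hu).1 ?_ h
  rw [(hBIC.1 _ (br4_append (br4_append hu hw) hv)).1]
  rfl

theorem ctx0 (hTQ : TQ) (hBIC : BIC) {u v w w' : Word} (hu : Br4 u) (hv : Br4 v) (hw : Br4 w)
    (h : Teq 4 w w') : Teq 0 (cups ++ u ++ w ++ v) (cups ++ u ++ w' ++ v) := by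
  refine hTQ.2.1 0 4 (cups ++ u) v w w' ?_ ?_ h
  · rw [cups_str]
    exact (hBIC.1 u hu).1
  · rw [List.append_assoc, List.append_assoc, cups_str, ← List.append_assoc,
      (hBIC.1 _ (br4_append (br4_append hu hw) hv)).1]
    rfl

/-- remove a word which the cups absorb -/
theorem absorb (hTQ : TQ) (hBIC : BIC) {w v : Word} (hw : Br4 w) (hv : Br4 v)
    (h : Teq 0 (cups ++ w) cups) : Teq 0 (cups ++ (w ++ v)) (cups ++ v) := by
  have h1 := hTQ.2.1 0 0 [] v (cups ++ w) cups rfl ?_ h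
  · simpa only [List.nil_append, List.append_assoc] using h1
  · rw [List.nil_append, List.append_assoc, cups_str, (hBIC.1 _ (br4_append hw hv)).1]
    rfl

theorem claim (hTQ : TQ) (hBIC : BIC) (hREL : REL) :
    ∀ b, Teq 4 (xW (b + 2)) (xW (b + 1) ++ bi (xW b) ++ xW (b + 1))
  | 0 => hREL
  | b + 1 => by
    have ih := claim hTQ hBIC hREL b
    have hx : Br4 (xW b) := br4_xW b
    have hx1 : Br4 (xW (b + 1)) := br4_xW (b + 1)
    have hx2 : Br4 (xW (b + 2)) := br4_xW (b + 2)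
    have hbx : Br4 (bi (xW b)) := (hBIC.1 _ hx).2
    have hA : Br4 [(.X true, 1)] := br4_X true
    have hB : Br4 [(.X false, 1)] := br4_X false
    have hbA : Br4 (bi [(.X true, 1)]) := (hBIC.1 _ hA).2
    have hbB : Br4 (bi [(.X false, 1)]) := (hBIC.1 _ hB).2
    have h1 : Teq 4 (xW (b + 3)) ([(.X true, 1)] ++ (xW (b + 1) ++ bi (xW b) ++ xW (b + 1)) ++
        [(.X false, 1)]) := ctx4 hTQ hBIC hA hB hx2 ih
    have h2 : bi (xW (b + 1)) = bi [(.X false, 1)] ++ (bi (xW b) ++ bi [(.X true, 1)]) := by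
      rw [xW_succ, (hBIC.2.1 _ _).1, (hBIC.2.1 _ _).1]
    -- remove the first bigon
    have h3 : Teq 4 (([(.X true, 1)] ++ xW (b + 1)) ++ ([(.X false, 1)] ++ bi [(.X false, 1)]) ++
        (bi (xW b) ++ bi [(.X true, 1)] ++ [(.X true, 1)] ++ xW (b + 1) ++ [(.X false, 1)]))
        (([(.X true, 1)] ++ xW (b + 1)) ++ [] ++
        (bi (xW b) ++ bi [(.X true, 1)] ++ [(.X true, 1)] ++ xW (b + 1) ++ [(.X false, 1)])) :=
      ctx4 hTQ hBIC (br4_append hA hx1)
        (br4_append (br4_append (br4_append (br4_append hbx hbA) hA) hx1) hB)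
        (br4_append hB hbB) (hBIC.2.2 _ hB).1
    -- remove the second bigon
    have h4 : Teq 4 (([(.X true, 1)] ++ xW (b + 1) ++ bi (xW b)) ++
        (bi [(.X true, 1)] ++ [(.X true, 1)]) ++ (xW (b + 1) ++ [(.X false, 1)]))
        (([(.X true, 1)] ++ xW (b + 1) ++ bi (xW b)) ++ [] ++ (xW (b + 1) ++ [(.X false, 1)])) :=
      ctx4 hTQ hBIC (br4_append (br4_append hA hx1) hbx) (br4_append hx1 hB)
        (br4_append hbA hA) (hBIC.2.2 _ hA).2
    have e1 : ([(.X true, 1)] ++ xW (b + 1)) ++ ([(.X false, 1)] ++ bi [(.X false, 1)]) ++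
        (bi (xW b) ++ bi [(.X true, 1)] ++ [(.X true, 1)] ++ xW (b + 1) ++ [(.X false, 1)]) =
        xW (b + 2) ++ bi (xW (b + 1)) ++ xW (b + 2) := by
      rw [h2, xW_succ (b + 1)]
      simp only [List.append_assoc]
    have e2 : ([(.X true, 1)] ++ xW (b + 1)) ++ [] ++
        (bi (xW b) ++ bi [(.X true, 1)] ++ [(.X true, 1)] ++ xW (b + 1) ++ [(.X false, 1)]) =
        ([(.X true, 1)] ++ xW (b + 1) ++ bi (xW b)) ++
        (bi [(.X true, 1)] ++ [(.X true, 1)]) ++ (xW (b + 1) ++ [(.X false, 1)]) := by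
      simp only [List.append_assoc, List.append_nil, List.nil_append]
    have e3 : ([(.X true, 1)] ++ xW (b + 1) ++ bi (xW b)) ++ [] ++ (xW (b + 1) ++ [(.X false, 1)])
        = [(.X true, 1)] ++ (xW (b + 1) ++ bi (xW b) ++ xW (b + 1)) ++ [(.X false, 1)] := by
      simp only [List.append_assoc, List.append_nil, List.nil_append]
    rw [e1, e2] at h3
    rw [e3] at h4
    exact h1.trans (hTQ.1 4 _ _ (h3.trans h4)).1

theorem cups_xW (hTQ : TQ) (hBIC : BIC) (hREL : REL) (hCUV : CUV) :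
    ∀ b, Teq 0 (cups ++ xW b) cups
  | 0 => hCUV.1
  | 1 => hCUV.2.1
  | b + 2 => by
    have ih0 := cups_xW hTQ hBIC hREL hCUV b
    have ih1 := cups_xW hTQ hBIC hREL hCUV (b + 1)
    have hx : Br4 (xW b) := br4_xW b
    have hx1 : Br4 (xW (b + 1)) := br4_xW (b + 1)
    have hx2 : Br4 (xW (b + 2)) := br4_xW (b + 2)
    have hbx : Br4 (bi (xW b)) := (hBIC.1 _ hx).2
    have h1 : Teq 0 (cups ++ xW (b + 2)) (cups ++ (xW (b + 1) ++ (bi (xW b) ++ xW (b + 1)))) := by
      have h := ctx0 hTQ hBIC br4_nil br4_nil hx2 (claim hTQ hBIC hREL b)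
      simpa only [List.append_nil, List.append_assoc] using h
    -- the inverse is absorbed
    have h2 : Teq 0 (cups ++ bi (xW b)) cups := by
      have h3 : Teq 0 (cups ++ (xW b ++ bi (xW b))) (cups ++ bi (xW b)) :=
        absorb hTQ hBIC hx hbx ih0
      have h4 : Teq 0 (cups ++ (xW b ++ bi (xW b))) cups := by
        have h := ctx0 hTQ hBIC br4_nil br4_nil (br4_append hx hbx) (hBIC.2.2 _ hx).1
        simpa only [List.append_nil, List.append_assoc] using h
      exact (hTQ.1 0 _ _ h3).1.trans h4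
    have h5 : Teq 0 (cups ++ (xW (b + 1) ++ (bi (xW b) ++ xW (b + 1))))
        (cups ++ (bi (xW b) ++ xW (b + 1))) := absorb hTQ hBIC hx1 (br4_append hbx hx1) ih1
    have h6 : Teq 0 (cups ++ (bi (xW b) ++ xW (b + 1))) (cups ++ xW (b + 1)) :=
      absorb hTQ hBIC hbx hx1 h2
    exact ((h1.trans h5).trans h6).trans ih1

theorem br4_flatten (a b : ℕ) : Br4 ((List.replicate a (xW b)).flatten) := by
  intro e he
  rw [List.mem_flatten] at he
  obtain ⟨l, hl, hel⟩ := he
  rw [List.eq_of_mem_replicate hl] at hel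
  exact br4_xW b e hel

theorem gXRC (hTQ : TQ) (hBIC : BIC) (hREL : REL) (hCUV : CUV) : XRC := by
  refine ⟨br4_xW, cups_xW hTQ hBIC hREL hCUV, ?_⟩
  intro a b
  induction a with
  | zero =>
    rw [List.replicate_zero, List.flatten_nil, List.append_nil]
    exact Relation.ReflTransGen.refl
  | succ a ih =>
    rw [List.replicate_succ, List.flatten_cons]
    exact (absorb hTQ hBIC (br4_xW b) (br4_flatten a b) (cups_xW hTQ hBIC hREL hCUV b)).trans ih

end Pool.Agent.Helper44.LK
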